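import Pool.Agent.H318Z.Silver.Inj
import Pool.Agent.H318Z.Silver.Main

set_option autoImplicit false
set_option linter.all false

/-!
It is consistent with ZFC that some set of reals has the `γ_p`-property for every nonprincipal
ultrafilter `p`, but not the `γ`-property: this follows from `𝔡 = ℵ₁` and the nonexistence of
P-points, and both are forced by the countable support product of Silver forcing.
-/

namespace Pool.Agent.Results.MP_e258b5_gt.AConsistentlyNo

open Pool.Agent.Helper185.Del Filter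
open Pool.Agent.Helper292.ForceCH (Om OmegaOnePreserved)
open H318Z.Silver (DomOne NoPPoint DomOneHolds NoPPointHolds)

theorem dom_eq (h : DomOne) : domNumber = Cardinal.aleph 1 := by
  obtain ⟨E, hE⟩ := h
  have hmem : Cardinal.mk (Set.range E) ∈ {κ | ∃ D : Set (ℕ → ℕ), Cardinal.mk D = κ ∧
      ∀ f : ℕ → ℕ, ∃ g ∈ D, ∀ᶠ n in atTop, f n ≤ g n} := by
    refine ⟨_, rfl, fun f => ?_⟩
    obtain ⟨a, ha⟩ := hE f
    exact ⟨E a, ⟨a, rfl⟩, Eventually.of_forall fun n => ha n _ _ ⟨rfl, rfl⟩⟩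
  refine le_antisymm ((csInf_le' hmem).trans (Cardinal.mk_range_le.trans (by simp))) ?_
  refine le_csInf ⟨_, hmem⟩ ?_
  rintro _ ⟨D, rfl, hD⟩
  by_contra hc
  have h1 : D.Countable := by
    rw [← Cardinal.le_aleph0_iff_set_countable, ← Order.lt_succ_iff, Cardinal.succ_aleph0]
    exact not_le.1 hc
  obtain ⟨g0, hg0, -⟩ := hD 0
  obtain ⟨g, hg⟩ := h1.exists_eq_range ⟨g0, hg0⟩
  obtain ⟨g', hg', h2⟩ := hD fun n => (Finset.range (n + 1)).sup (fun k => g k n) + 1
  rw [hg] at hg'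
  obtain ⟨k, rfl⟩ := hg'
  obtain ⟨n, h3, h4⟩ := (h2.and (eventually_ge_atTop k)).exists
  have h5 : g k n ≤ (Finset.range (n + 1)).sup (fun k => g k n) :=
    Finset.le_sup (f := fun k => g k n) (Finset.mem_range.2 (Nat.lt_succ_of_le h4))
  omega

theorem no_ppoint (h : NoPPoint) (p : Ultrafilter ℕ) : ¬ IsPPoint p := by
  rintro ⟨h1, h2⟩
  refine h ⟨{x | x ∈ p}, ⟨?_, ?_, ?_⟩, ?_⟩
  · rintro x y z ⟨hx, hy, hz⟩
    exact mem_of_superset (inter_mem hx hy) fun n hn => hz n hn
  · intro x y hxy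
    refine Ultrafilter.union_mem_iff.1 ?_
    rw [Set.eq_univ_of_forall (s := x ∪ y) hxy]
    exact univ_mem
  · intro x hx m
    have h3 : Set.Ici m ∈ (p : Filter ℕ) := h1 (by
      rw [Nat.cofinite_eq_atTop]; exact Ici_mem_atTop m)
    obtain ⟨n, hn1, hn2⟩ := p.nonempty_of_mem (inter_mem h3 hx)
    exact ⟨n, hn1, hn2⟩
  · intro X hX
    obtain ⟨B, hB, h3⟩ := h2 X hX
    refine ⟨B, hB, fun k => ?_⟩
    obtain ⟨m, hm⟩ := (h3 k).bddAbove
    refine ⟨m + 1, fun n hn => ?_⟩
    by_contra hc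
    have := hm ⟨hn.2, hc⟩
    omega

/-- The `γ_p`-property, in the strong reading: each open `ω`-cover has a subfamily with an
injective enumeration `(U n)` such that `{n | x ∈ U n} ∈ p` for every point `x`. -/
def GammaPInj (p : Ultrafilter ℕ) (X : Type) [TopologicalSpace X] : Prop :=
  ∀ 𝒰 : Set (Set X), IsOmegaCover 𝒰 →
    ∃ U : ℕ → Set X, Function.Injective U ∧ (∀ n, U n ∈ 𝒰) ∧ ∀ x, {n | x ∈ U n} ∈ p

/-- (1) Some forcing notion preserves `ω₁` and forces that the dominating number is `ℵ₁` and that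
there is no P-point. (2) These two statements imply that some infinite set of reals has the
`γ_p`-property for every nonprincipal ultrafilter `p` and does not have the `γ`-property. -/
theorem result :
    (∃ (P : Type) (_ : Preorder P), Nonempty P ∧ ∀ p : P,
      p ∈ OmegaOnePreserved P ∧ p ∈ DomOneHolds P ∧ p ∈ NoPPointHolds P) ∧
    (DomOne → NoPPoint → ∃ X : Set ℝ, X.Infinite ∧
      (∀ p : Ultrafilter ℕ, Nonprincipal p → GammaPInj p X) ∧ ¬ GammaProperty X) := by
  refine ⟨H318Z.Silver.exists_forcing, fun h1 h2 => ?_⟩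
  obtain ⟨X, a1, a2, a3⟩ := exists_real3 (dom_eq h1)
  exact ⟨X, a1, fun p hp => H318Z.Silver.inj_of_tripleLim a2 (no_ppoint h2) hp, a3⟩

end Pool.Agent.Results.MP_e258b5_gt.AConsistentlyNo
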