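import Pool.Agent.Helper185.DelNoP
import Pool.Agent.H422Z.Sil.NoP

/-!
Negative answer: (a) some notion of forcing preserves `ω₁`, adds a dominating family indexed by
`ω₁` and forces that there are no P-points; (b) these two properties give a set of reals with the
`γ_p`-property for every nonprincipal ultrafilter `p` and without the `γ`-property.
-/

namespace Pool.Agent.Results.MP_e258b5_gt.AForced

open Pool.Agent.Helper185.Del Pool.Agent.H422Z.Sil

theorem domNumber_eq (g : Om → ℕ → ℕ) (hg : ∀ f : ℕ → ℕ, ∃ ξ m, ∀ n, m ≤ n → f n ≤ g ξ n) :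
    domNumber = Cardinal.aleph 1 := by
  have hmem : Cardinal.mk (Set.range g) ∈ {κ | ∃ D : Set (ℕ → ℕ), Cardinal.mk D = κ ∧
      ∀ f : ℕ → ℕ, ∃ g ∈ D, ∀ᶠ n in Filter.atTop, f n ≤ g n} := by
    refine ⟨_, rfl, fun f => ?_⟩
    obtain ⟨ξ, m, h⟩ := hg f
    exact ⟨g ξ, ⟨ξ, rfl⟩, Filter.eventually_atTop.2 ⟨m, h⟩⟩
  refine le_antisymm ((csInf_le' hmem).trans ?_) (le_csInf ⟨_, hmem⟩ ?_)
  · exact Cardinal.mk_range_le.trans (Cardinal.mk_ord_toType _).le
  · rintro _ ⟨D, rfl, hD⟩
    by_contra hlt
    have hc : D.Countable := by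
      rw [← Cardinal.le_aleph0_iff_set_countable, ← Order.lt_succ_iff, Cardinal.succ_aleph0]
      exact not_le.1 hlt
    obtain ⟨e, he⟩ := Set.countable_iff_exists_subset_range.1 hc
    obtain ⟨g', hg', h⟩ := hD (fun n => (Finset.range (n + 1)).sup (fun i => e i n) + 1)
    obtain ⟨i, rfl⟩ := he hg'
    obtain ⟨m, hm⟩ := Filter.eventually_atTop.1 h
    have h1 := hm (max m i) (le_max_left _ _)
    have h2 : e i (max m i) ≤ (Finset.range (max m i + 1)).sup (fun j => e j (max m i)) :=
      Finset.le_sup (f := fun j => e j (max m i))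
        (Finset.mem_range.2 (Nat.lt_succ_of_le (le_max_right _ _)))
    omega

/-- (a) There is a notion of forcing each condition of which forces: `ω₁` is preserved, some
family of functions indexed by `ω₁` is dominating, and there are no P-points.
(b) If some family indexed by `ω₁` is dominating and there are no P-points, then there is an
infinite set of reals with the `γ_p`-property for every nonprincipal ultrafilter `p` and without
the `γ`-property. -/
theorem result :
    (∃ (P : Type) (_ : Preorder P), Nonempty P ∧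
      ∀ p : P, p ∈ OmegaOnePreserved P ∧ p ∈ DomHolds P ∧ p ∈ NoPPoints P) ∧
    ((∃ g : Om → ℕ → ℕ, ∀ f : ℕ → ℕ, ∃ ξ m, ∀ n, m ≤ n → f n ≤ g ξ n) →
      (∀ p : Ultrafilter ℕ, ¬ IsPPoint p) →
      ∃ X : Set ℝ, X.Infinite ∧ (∀ p : Ultrafilter ℕ, Nonprincipal p → GammaP p X) ∧
        ¬ GammaProperty X) :=
  ⟨forced, fun ⟨g, hg⟩ hno => exists_real4 (domNumber_eq g hg) hno⟩

end Pool.Agent.Results.MP_e258b5_gt.AForced
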